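import Pool.Agent.Helper51.LT.St
import Pool.Agent.Helper71.TU.X5aux

/-!
# Project LT, module CJU: univalence of the Carleson-Jones perturbation
-/

set_option autoImplicit false

namespace Pool.Agent.Helper4.LT

open Complex MeasureTheory Set Metric Filter Topology
open Pool.Agent.Helper51.LT

/-- the primitive of `-e^{-y}(1+y)^4` -/
private noncomputable def Qf (y : ℝ) : ℝ :=
  Real.exp (-y) * (y ^ 4 + 8 * y ^ 3 + 30 * y ^ 2 + 64 * y + 65)

private lemma hasDerivAt_Qf (y : ℝ) : HasDerivAt Qf (-(Real.exp (-y) * (1 + y) ^ 4)) y := by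
  have h1 : HasDerivAt (fun y : ℝ => Real.exp (-y)) (Real.exp (-y) * (-1)) y :=
    (hasDerivAt_neg y).exp
  have h2 : HasDerivAt (fun y : ℝ => y ^ 4 + 8 * y ^ 3 + 30 * y ^ 2 + 64 * y + 65)
      (4 * y ^ 3 + 8 * (3 * y ^ 2) + 30 * (2 * y) + 64) y := by
    have e4 := hasDerivAt_pow 4 y
    have e3 := (hasDerivAt_pow 3 y).const_mul (8 : ℝ)
    have e2 := (hasDerivAt_pow 2 y).const_mul (30 : ℝ)
    have e1 := (hasDerivAt_id y).const_mul (64 : ℝ)
    have := (((e4.add e3).add e2).add e1).add_const (65 : ℝ)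
    refine this.congr_deriv ?_
    norm_num
  have h3 := h1.mul h2
  refine h3.congr_deriv ?_
  ring

/-- the estimate of the perturbation by the derivative -/
private lemma step1 (hD2 : StD2) (d : ℝ) (f u p : ℂ → ℂ) (M : ℕ) (hd : 0 < d)
    (hf : Un f (ball 0 (1 + d))) (hM : 1 ≤ (M : ℝ) * d) (hp : ∀ z : ℂ, ‖z‖ ≤ 1 → ‖p z‖ ≤ 5 / 4)
    (hu0 : u 0 = 0)
    (hu : ∀ z ∈ ball (0 : ℂ) (1 + d), HasDerivAt u (1 / 2000 * deriv f z * z ^ M * p z) z)
    (z : ℂ) (hz : ‖z‖ ≤ 1) : (M : ℝ) * ‖u z‖ ≤ 13 / 320 * ‖deriv f z‖ := by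
  have hMpos : (0 : ℝ) < M := by
    by_contra hcon
    have h0 : (M : ℝ) * d ≤ 0 := mul_nonpos_of_nonpos_of_nonneg (not_lt.1 hcon) hd.le
    linarith
  set ρ : ℝ := ‖z‖ with hρ
  have hρ0 : 0 ≤ ρ := norm_nonneg z
  set K : ℝ := 1 / 1600 * ‖deriv f z‖ / M with hK
  have hK0 : 0 ≤ K := by positivity
  have hmem : ∀ t : ℝ, 0 ≤ t → t ≤ 1 → (t : ℂ) * z ∈ ball (0 : ℂ) (1 + d) := by
    intro t ht0 ht1
    rw [mem_ball_zero_iff, norm_mul, Complex.norm_real, Real.norm_eq_abs, abs_of_nonneg ht0]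
    have : t * ‖z‖ ≤ 1 * 1 := mul_le_mul ht1 hz (norm_nonneg z) zero_le_one
    linarith
  have hder : ∀ t : ℝ, 0 ≤ t → t ≤ 1 → HasDerivAt (fun t : ℝ => u ((t : ℂ) * z))
      (1 / 2000 * deriv f ((t : ℂ) * z) * ((t : ℂ) * z) ^ M * p ((t : ℂ) * z) * z) t := by
    intro t ht0 ht1
    have h0 : HasDerivAt (fun t : ℝ => (t : ℂ)) 1 t := Complex.ofRealCLM.hasDerivAt
    have h1 : HasDerivAt (fun t : ℝ => (t : ℂ) * z) z t := by
      simpa using h0.mul_const z
    exact (hu _ (hmem t ht0 ht1)).comp_of_eq t h1 rfl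
  -- the barrier
  have hB : ∀ t : ℝ, HasDerivAt (fun t : ℝ => K * Qf ((M : ℝ) * ρ * (1 - t)))
      (K * ((M : ℝ) * ρ) * (Real.exp (-((M : ℝ) * ρ * (1 - t)))
        * (1 + (M : ℝ) * ρ * (1 - t)) ^ 4)) t := by
    intro t
    have h1 : HasDerivAt (fun t : ℝ => (M : ℝ) * ρ * (1 - t)) ((M : ℝ) * ρ * (-1)) t :=
      ((hasDerivAt_id t).const_sub 1).const_mul _
    have h2 := ((hasDerivAt_Qf ((M : ℝ) * ρ * (1 - t))).comp t h1).const_mul K
    refine h2.congr_deriv ?_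
    ring
  have key := image_norm_le_of_norm_deriv_right_le_deriv_boundary
    (f := fun t : ℝ => u ((t : ℂ) * z))
    (f' := fun t : ℝ => 1 / 2000 * deriv f ((t : ℂ) * z) * ((t : ℂ) * z) ^ M
      * p ((t : ℂ) * z) * z) (a := 0) (b := 1)
    (fun t ht => (hder t ht.1 ht.2).continuousAt.continuousWithinAt)
    (fun t ht => (hder t ht.1 ht.2.le).hasDerivWithinAt)
    (by
      simp only [Complex.ofReal_zero, zero_mul, hu0, norm_zero]
      have : 0 ≤ Qf ((M : ℝ) * ρ * (1 - 0)) := by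
        unfold Qf
        positivity
      exact mul_nonneg hK0 this)
    hB
    (by
      intro t ht
      have ht0 := ht.1
      have ht1 := ht.2.le
      have hp1 : ‖p ((t : ℂ) * z)‖ ≤ 5 / 4 := by
        apply hp
        rw [norm_mul, Complex.norm_real, Real.norm_eq_abs, abs_of_nonneg ht0]
        calc t * ‖z‖ ≤ 1 * 1 := mul_le_mul ht1 hz (norm_nonneg z) zero_le_one
          _ = 1 := one_mul 1
      have hd2 := (hD2 f (1 + d) z t (by linarith) hf (by linarith) ht0 ht1).1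
      rw [← hρ] at hd2
      have hpos : 0 < 1 + d - ρ := by linarith
      -- derivative bound
      have hf1 : ‖deriv f ((t : ℂ) * z)‖ ≤ (1 + (M : ℝ) * ρ * (1 - t)) ^ 4 * ‖deriv f z‖ := by
        have h1 : (1 + d - t * ρ) ≤ (1 + (M : ℝ) * ρ * (1 - t)) * (1 + d - ρ) := by
          have h2 : 0 ≤ ρ * (1 - t) := mul_nonneg hρ0 (by linarith)
          have h3 : ρ * (1 - t) ≤ (M : ℝ) * ρ * (1 - t) * (1 + d - ρ) := by
            have h4 : 1 ≤ (M : ℝ) * (1 + d - ρ) := by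
              have : (M : ℝ) * d ≤ (M : ℝ) * (1 + d - ρ) :=
                mul_le_mul_of_nonneg_left (by linarith) hMpos.le
              linarith
            calc ρ * (1 - t) = ρ * (1 - t) * 1 := (mul_one _).symm
              _ ≤ ρ * (1 - t) * ((M : ℝ) * (1 + d - ρ)) := mul_le_mul_of_nonneg_left h4 h2
              _ = (M : ℝ) * ρ * (1 - t) * (1 + d - ρ) := by ring
          linarith [h3]
        have h5 : 0 ≤ 1 + d - t * ρ := by
          have : t * ρ ≤ 1 * ρ := mul_le_mul_of_nonneg_right ht1 hρ0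
          linarith
        have h6 : (1 + d - t * ρ) ^ 4 ≤ ((1 + (M : ℝ) * ρ * (1 - t)) * (1 + d - ρ)) ^ 4 :=
          pow_le_pow_left₀ h5 h1 4
        have h7 : (1 + d - ρ) ^ 4 * ‖deriv f ((t : ℂ) * z)‖
            ≤ (1 + d - ρ) ^ 4 * ((1 + (M : ℝ) * ρ * (1 - t)) ^ 4 * ‖deriv f z‖) := by
          calc (1 + d - ρ) ^ 4 * ‖deriv f ((t : ℂ) * z)‖
              ≤ (1 + d - t * ρ) ^ 4 * ‖deriv f z‖ := hd2
            _ ≤ ((1 + (M : ℝ) * ρ * (1 - t)) * (1 + d - ρ)) ^ 4 * ‖deriv f z‖ :=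
                mul_le_mul_of_nonneg_right h6 (norm_nonneg _)
            _ = (1 + d - ρ) ^ 4 * ((1 + (M : ℝ) * ρ * (1 - t)) ^ 4 * ‖deriv f z‖) := by ring
        exact le_of_mul_le_mul_left h7 (by positivity)
      have hexp : (t * ρ) ^ M ≤ Real.exp (-((M : ℝ) * ρ * (1 - t))) := by
        have h1 : t * ρ ≤ Real.exp (-(ρ * (1 - t))) := by
          have h2 := Real.add_one_le_exp (-(ρ * (1 - t)))
          linarith [h2]
        have h3 : (t * ρ) ^ M ≤ (Real.exp (-(ρ * (1 - t)))) ^ M :=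
          pow_le_pow_left₀ (mul_nonneg ht0 hρ0) h1 M
        rw [← Real.exp_nat_mul] at h3
        have e : (M : ℝ) * -(ρ * (1 - t)) = -((M : ℝ) * ρ * (1 - t)) := by ring
        rw [e] at h3
        exact h3
      have hn : ‖1 / 2000 * deriv f ((t : ℂ) * z) * ((t : ℂ) * z) ^ M * p ((t : ℂ) * z) * z‖
          = 1 / 2000 * ‖deriv f ((t : ℂ) * z)‖ * (t * ρ) ^ M * ‖p ((t : ℂ) * z)‖ * ρ := by
        have e1 : ‖(1 / 2000 : ℂ)‖ = 1 / 2000 := by
          rw [norm_div, norm_one, Complex.norm_ofNat]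
        rw [norm_mul, norm_mul, norm_mul, norm_mul, norm_pow, norm_mul, Complex.norm_real,
          Real.norm_eq_abs, abs_of_nonneg ht0, e1]
      rw [hn]
      have hA : 0 ≤ (1 + (M : ℝ) * ρ * (1 - t)) ^ 4 * ‖deriv f z‖ := by positivity
      calc 1 / 2000 * ‖deriv f ((t : ℂ) * z)‖ * (t * ρ) ^ M * ‖p ((t : ℂ) * z)‖ * ρ
          ≤ 1 / 2000 * ((1 + (M : ℝ) * ρ * (1 - t)) ^ 4 * ‖deriv f z‖)
              * Real.exp (-((M : ℝ) * ρ * (1 - t))) * (5 / 4) * ρ := by
            apply mul_le_mul_of_nonneg_right _ hρ0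
            apply mul_le_mul _ hp1 (norm_nonneg _) (by positivity)
            apply mul_le_mul _ hexp (by positivity) (by positivity)
            exact mul_le_mul_of_nonneg_left hf1 (by norm_num)
        _ = K * ((M : ℝ) * ρ) * (Real.exp (-((M : ℝ) * ρ * (1 - t)))
              * (1 + (M : ℝ) * ρ * (1 - t)) ^ 4) := by
            rw [hK]
            field_simp
            ring)
  have h1 := key (x := 1) ⟨zero_le_one, le_refl 1⟩
  simp only [Complex.ofReal_one, one_mul, sub_self, mul_zero] at h1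
  have hQ0 : Qf 0 = 65 := by
    unfold Qf
    simp
  rw [hQ0, hK] at h1
  have h2 : (M : ℝ) * ‖u z‖ ≤ (M : ℝ) * (1 / 1600 * ‖deriv f z‖ / M * 65) :=
    mul_le_mul_of_nonneg_left h1 hMpos.le
  have e : (M : ℝ) * (1 / 1600 * ‖deriv f z‖ / M * 65) = 13 / 320 * ‖deriv f z‖ := by
    field_simp
    ring
  rw [e] at h2
  exact h2

private lemma norm_du (f p : ℂ → ℂ) (M : ℕ) (w : ℂ) :
    ‖1 / 2000 * deriv f w * w ^ M * p w‖ = 1 / 2000 * ‖deriv f w‖ * ‖w‖ ^ M * ‖p w‖ := by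
  have e1 : ‖(1 / 2000 : ℂ)‖ = 1 / 2000 := by
    rw [norm_div, norm_one, Complex.norm_ofNat]
  rw [norm_mul, norm_mul, norm_mul, norm_pow, e1]

theorem hCJU (hKoe : StKoe) (hD2 : StD2) (hD3 : StD3) : StCJU := by
  intro d f u p M hd hd1 hf hM hp hu0 hu
  have hMpos : (0 : ℝ) < M := by
    by_contra hcon
    have h0 : (M : ℝ) * d ≤ 0 := mul_nonpos_of_nonpos_of_nonneg (not_lt.1 hcon) hd.le
    linarith
  constructor
  · intro z₁ hz₁ z₂ hz₂ heq
    rw [mem_closedBall_zero_iff] at hz₁ hz₂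
    by_contra hne
    simp only at heq
    have hnep : 0 < ‖z₂ - z₁‖ := norm_pos_iff.2 (sub_ne_zero.2 (Ne.symm hne))
    have hm1 : z₁ ∈ ball (0 : ℂ) (1 + d) := by
      rw [mem_ball_zero_iff]; linarith
    have hm2 : z₂ ∈ ball (0 : ℂ) (1 + d) := by
      rw [mem_ball_zero_iff]; linarith
    have hsub : ∀ z : ℂ, ‖z‖ ≤ 1 → ball z d ⊆ ball (0 : ℂ) (1 + d) := by
      intro z hz w hw
      rw [mem_ball, dist_eq_norm] at hw
      rw [mem_ball_zero_iff]
      calc ‖w‖ = ‖(w - z) + z‖ := by rw [sub_add_cancel]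
        _ ≤ ‖w - z‖ + ‖z‖ := norm_add_le _ _
        _ < 1 + d := by linarith
    have hfne : f z₁ ≠ f z₂ := fun h => hne (hf.2 hm1 hm2 h)
    have hΔ : 0 < ‖f z₂ - f z₁‖ := norm_pos_iff.2 (sub_ne_zero.2 (Ne.symm hfne))
    have hfu : ‖u z₂ - u z₁‖ = ‖f z₂ - f z₁‖ := by
      have : u z₂ - u z₁ = -(f z₂ - f z₁) := by linear_combination -heq
      rw [this, norm_neg]
    have hk1 := hKoe f (ball 0 (1 + d)) z₁ d hd (hsub z₁ hz₁) isOpen_ball hf z₂ hm2
    have hk2 := hKoe f (ball 0 (1 + d)) z₂ d hd (hsub z₂ hz₂) isOpen_ball hf z₁ hm1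
    have hsym1 : ‖z₁ - z₂‖ = ‖z₂ - z₁‖ := norm_sub_rev _ _
    have hsym2 : ‖f z₁ - f z₂‖ = ‖f z₂ - f z₁‖ := norm_sub_rev _ _
    rw [hsym1, hsym2] at hk2
    have hne1 : deriv f z₁ ≠ 0 := Pool.TU.X5.deriv_ne_zero_of_injOn isOpen_ball hf.1 hf.2 hm1
    have hpos1 : 0 < ‖deriv f z₁‖ := norm_pos_iff.2 hne1
    rcases le_or_gt ‖z₂ - z₁‖ (d / 2) with hcase | hcase
    · -- close points
      have hmin : min ‖z₂ - z₁‖ d = ‖z₂ - z₁‖ := min_eq_left (by linarith)
      rw [hmin] at hk1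
      have hbd : ∀ w ∈ closedBall (0 : ℂ) 1 ∩ closedBall z₁ (d / 2),
          ‖1 / 2000 * deriv f w * w ^ M * p w‖ ≤ 1 / 100 * ‖deriv f z₁‖ := by
        rintro w ⟨hw1, hw2⟩
        rw [mem_closedBall_zero_iff] at hw1
        rw [mem_closedBall, dist_eq_norm] at hw2
        have h3 := (hD3 f z₁ w d hd ⟨hf.1.mono (hsub z₁ hz₁), hf.2.mono (hsub z₁ hz₁)⟩
          (by linarith)).1
        have h4 : (d / 2) ^ 4 * ‖deriv f w‖ ≤ d ^ 4 * ‖deriv f z₁‖ := by
          refine le_trans ?_ h3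
          apply mul_le_mul_of_nonneg_right _ (norm_nonneg _)
          exact pow_le_pow_left₀ (by linarith) (by linarith) 4
        have h5 : ‖deriv f w‖ ≤ 16 * ‖deriv f z₁‖ := by
          have hd4 : 0 < d ^ 4 := by positivity
          have h6 : d ^ 4 * ‖deriv f w‖ ≤ d ^ 4 * (16 * ‖deriv f z₁‖) := by
            have e : (d / 2) ^ 4 * ‖deriv f w‖ = d ^ 4 * ‖deriv f w‖ / 16 := by ring
            rw [e] at h4
            linarith
          exact le_of_mul_le_mul_left h6 hd4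
        rw [norm_du]
        have h7 : ‖w‖ ^ M ≤ 1 := pow_le_one₀ (norm_nonneg _) hw1
        calc 1 / 2000 * ‖deriv f w‖ * ‖w‖ ^ M * ‖p w‖
            ≤ 1 / 2000 * (16 * ‖deriv f z₁‖) * 1 * (5 / 4) := by
              apply mul_le_mul _ (hp w hw1) (norm_nonneg _) (by positivity)
              apply mul_le_mul _ h7 (by positivity) (by positivity)
              exact mul_le_mul_of_nonneg_left h5 (by norm_num)
          _ = 1 / 100 * ‖deriv f z₁‖ := by ring
      have hmv := Convex.norm_image_sub_le_of_norm_hasDerivWithin_le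
        (s := closedBall (0 : ℂ) 1 ∩ closedBall z₁ (d / 2)) (f := u)
        (f' := fun w => 1 / 2000 * deriv f w * w ^ M * p w) (x := z₁) (y := z₂)
        (C := 1 / 100 * ‖deriv f z₁‖)
        (by
          rintro w ⟨hw1, _⟩
          rw [mem_closedBall_zero_iff] at hw1
          exact (hu w (by rw [mem_ball_zero_iff]; linarith)).hasDerivWithinAt)
        hbd ((convex_closedBall 0 1).inter (convex_closedBall z₁ (d / 2)))
        ⟨by rw [mem_closedBall_zero_iff]; exact hz₁, mem_closedBall_self (by linarith)⟩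
        ⟨by rw [mem_closedBall_zero_iff]; exact hz₂,
          by rw [mem_closedBall, dist_eq_norm]; exact hcase⟩
      rw [hfu] at hmv
      have : 0 < ‖deriv f z₁‖ * ‖z₂ - z₁‖ := mul_pos hpos1 hnep
      nlinarith [hk1, hmv]
    · -- far points
      have hmin : d / 2 ≤ min ‖z₂ - z₁‖ d := le_min hcase.le (by linarith)
      have h1 : ‖deriv f z₁‖ * (d / 2) ≤ 4 * ‖f z₂ - f z₁‖ :=
        le_trans (mul_le_mul_of_nonneg_left hmin (norm_nonneg _)) hk1
      have h2 : ‖deriv f z₂‖ * (d / 2) ≤ 4 * ‖f z₂ - f z₁‖ :=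
        le_trans (mul_le_mul_of_nonneg_left hmin (norm_nonneg _)) hk2
      have s1 := step1 hD2 d f u p M hd hf hM hp hu0 hu z₁ hz₁
      have s2 := step1 hD2 d f u p M hd hf hM hp hu0 hu z₂ hz₂
      have t1 : ‖u z₂ - u z₁‖ ≤ ‖u z₂‖ + ‖u z₁‖ := norm_sub_le _ _
      rw [hfu] at t1
      have a1 : ‖u z₁‖ ≤ 13 / 320 * (‖deriv f z₁‖ * d) := by
        have : 1 * ‖u z₁‖ ≤ ((M : ℝ) * d) * ‖u z₁‖ := mul_le_mul_of_nonneg_right hM (norm_nonneg _)
        have h := mul_le_mul_of_nonneg_right s1 hd.le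
        nlinarith [this, h]
      have a2 : ‖u z₂‖ ≤ 13 / 320 * (‖deriv f z₂‖ * d) := by
        have : 1 * ‖u z₂‖ ≤ ((M : ℝ) * d) * ‖u z₂‖ := mul_le_mul_of_nonneg_right hM (norm_nonneg _)
        have h := mul_le_mul_of_nonneg_right s2 hd.le
        nlinarith [this, h]
      linarith
  · intro r S hr0 hr1 hS z hz
    have hS0 : 0 ≤ S := le_trans (norm_nonneg _) (hS 0 (by simpa using hr0))
    have hmv := Convex.norm_image_sub_le_of_norm_hasDerivWithin_le
      (s := closedBall (0 : ℂ) r) (f := u)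
      (f' := fun w => 1 / 2000 * deriv f w * w ^ M * p w) (x := 0) (y := z)
      (C := r ^ M * S)
      (by
        intro w hw
        rw [mem_closedBall_zero_iff] at hw
        exact (hu w (by rw [mem_ball_zero_iff]; linarith)).hasDerivWithinAt)
      (by
        intro w hw
        rw [mem_closedBall_zero_iff] at hw
        rw [norm_du]
        have h7 : ‖w‖ ^ M ≤ r ^ M := pow_le_pow_left₀ (norm_nonneg _) hw M
        have h8 : 0 ≤ r ^ M := by positivity
        calc 1 / 2000 * ‖deriv f w‖ * ‖w‖ ^ M * ‖p w‖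
            ≤ 1 / 2000 * S * r ^ M * (5 / 4) := by
              apply mul_le_mul _ (hp w (by linarith)) (norm_nonneg _) (by positivity)
              apply mul_le_mul _ h7 (by positivity) (by positivity)
              exact mul_le_mul_of_nonneg_left (hS w hw) (by norm_num)
          _ ≤ r ^ M * S := by
              have : 0 ≤ r ^ M * S := mul_nonneg h8 hS0
              nlinarith)
      (convex_closedBall 0 r) (mem_closedBall_self hr0)
      (by rw [mem_closedBall_zero_iff]; exact hz)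
    rw [hu0, sub_zero, sub_zero] at hmv
    have h9 : 0 ≤ r ^ M * S := by positivity
    calc ‖u z‖ ≤ r ^ M * S * ‖z‖ := hmv
      _ ≤ r ^ M * S * 1 := mul_le_mul_of_nonneg_left (by linarith) h9
      _ = r ^ M * S := mul_one _

end Pool.Agent.Helper4.LT
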