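import Pool.Agent.Helper69.LT.St
import Pool.Agent.Helper84.LE.M_Loc

/-!
# Project LT, module Loc: locality
Everything which starts at `v` depends only on the edges touching the cluster of `v`.
-/

set_option autoImplicit false

open scoped BigOperators ENNReal
open Pool.LE Pool.NL

namespace Pool.LT

namespace LocM

variable {V : Type} [DecidableEq V] {R : Type} [CommRing R]

theorem pw_loc (L : Finset V) (r : V → R) {ω η : Finset (Sym2 V)} {v : V} (h : LocH ω η v) :
    pw L r ω v = pw L r η v := by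
  classical
  unfold pw
  refine Finset.prod_congr ?_ fun _ _ => rfl
  refine Finset.filter_congr fun y _ => ?_
  exact h.con y

theorem mT_loc (L : Finset V) (r : V → R) {ω η : Finset (Sym2 V)} {v : V} (h : LocH ω η v) (u : V) :
    mT L r ω v u = mT L r η v u := by
  classical
  unfold mT
  rw [pw_loc L r h]
  by_cases hu : con ω v u
  · rw [if_pos hu, if_pos ((h.con u).1 hu)]
  · rw [if_neg hu, if_neg (fun h' => hu ((h.con u).2 h'))]

theorem mA_loc (L : Finset V) (r : V → R) {ω η : Finset (Sym2 V)} {v : V} (h : LocH ω η v) (A : Set V)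
    (u : V) : mA L r ω A v u = mA L r η A v u := by
  classical
  unfold mA
  by_cases hv : v ∈ A
  · rw [if_pos hv, if_pos hv]
  · rw [if_neg hv, if_neg hv, mT_loc L r (h.rst A)]

open Classical in
theorem vA_sub (L : Finset V) (r : V → R) {ω : Finset (Sym2 V)} {D : Finset (V × V)} (hD : drt ω ⊆ D)
    (A : Set V) (v x : V) : vA L r ω A v x =
      (if dbl ω v x then mT L r ω v x - mA L r ω A v x else 0) +
      ∑ cb ∈ D, if piv ω v x cb.1 cb.2 ∧ dbl ω cb.2 x then
        mA L r (ω.erase s(cb.1, cb.2)) A v cb.1 *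
          (mT L r (ω.erase s(cb.1, cb.2)) cb.2 x - mA L r (ω.erase s(cb.1, cb.2)) A cb.2 x) else 0 := by
  unfold vA
  congr 1
  refine Finset.sum_subset hD fun cb _ hcb => ?_
  rw [if_neg]
  rintro ⟨hp, -⟩
  exact hcb (mem_drt'.2 hp.1)

theorem vA_loc (L : Finset V) (r : V → R) {ω η : Finset (Sym2 V)} {v : V} (h : LocH ω η v) (A : Set V)
    (x : V) : vA L r ω A v x = vA L r η A v x := by
  classical
  rw [vA_sub L r (D := drt ω ∪ drt η) Finset.subset_union_left A v x,
    vA_sub L r (D := drt ω ∪ drt η) Finset.subset_union_right A v x]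
  congr 1
  · by_cases hd : dbl ω v x
    · rw [if_pos hd, if_pos ((h.dbl x).1 hd), mT_loc L r h, mA_loc L r h]
    · rw [if_neg hd, if_neg (fun h' => hd ((h.dbl x).2 h'))]
  · refine Finset.sum_congr rfl fun cb _ => ?_
    by_cases hp : piv ω v x cb.1 cb.2
    · have hva : con ω v cb.1 := con_mono (Finset.erase_subset _ _) hp.2.1
      have hvb : con ω v cb.2 := con_trans hva (con_of_mem hp.1)
      have hb := h.move hvb
      by_cases hd : dbl ω cb.2 x
      · rw [if_pos ⟨hp, hd⟩, if_pos ⟨h.piv_imp hp, (hb.dbl x).1 hd⟩, mA_loc L r (h.erase _),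
          mT_loc L r (hb.erase _), mA_loc L r (hb.erase _)]
      · rw [if_neg (fun h' => hd h'.2), if_neg (fun h' => hd ((hb.dbl x).2 h'.2))]
    · rw [if_neg (fun h' => hp h'.1), if_neg (fun h' => hp ((h.piv _ _ _).2 h'.1))]

end LocM

theorem hLoc : SLoc := by
  intro V _ R _ L r ω η v h A u
  have h' : LocH ω η v := h
  exact ⟨LocM.mT_loc L r h' u, LocM.mA_loc L r h' A u, LocM.vA_loc L r h' A u⟩

end Pool.LT
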